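import Mathlib
import Pool.Agent.H85.SC.Targets

/-!
# Complexity of synthesis, module TRP: trapezoid kernels
-/

open Filter Topology MeasureTheory

namespace Pool.Agent.H65.SC

open Pool.Agent.H87.Synth Pool.Agent.H85.SC

/-- convolution with a kernel is a multiplier -/
theorem mulB_of_kernel (K : L1) (M : ℤ → ℂ) (C : ℝ) (hK : ‖K‖ ≤ C) (h : ∀ z, coeff K z = M z) : MulB M C := by
  let T : L1 →ₗ[ℂ] L1 :=
    { toFun := fun f => conv f K
      map_add' := fun f g => by
        apply ext_coeff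
        intro n
        rw [coeff_add, coeff_conv, coeff_conv, coeff_conv, coeff_add]
        ring
      map_smul' := fun c f => by
        apply ext_coeff
        intro n
        rw [RingHom.id_apply, coeff_smul, coeff_conv, coeff_conv, coeff_smul]
        ring }
  have hb : ∀ f, ‖T f‖ ≤ C * ‖f‖ := by
    intro f
    have h1 := norm_conv_le f K
    show ‖conv f K‖ ≤ _
    calc ‖conv f K‖ ≤ ‖f‖ * ‖K‖ := h1
      _ ≤ ‖f‖ * C := mul_le_mul_of_nonneg_left hK (norm_nonneg _)
      _ = C * ‖f‖ := mul_comm _ _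
  refine ⟨T.mkContinuous C hb, fun f z => ?_, fun f => hb f⟩
  show coeff (conv f K) z = _
  rw [coeff_conv, h]
  ring

theorem trap_eq (A B : ℕ) (hA : 0 < A) (hAB : A < B) (z : ℤ) :
    (B : ℝ) * max 0 (1 - |(z : ℝ)| / B) - A * max 0 (1 - |(z : ℝ)| / A) = (B - A) * trap A B z := by
  have hA' : (0 : ℝ) < A := by exact_mod_cast hA
  have hAB' : (A : ℝ) < B := by exact_mod_cast hAB
  have hB' : (0 : ℝ) < B := by linarith
  have hd : (0 : ℝ) < B - A := by linarith
  unfold trap
  rcases le_or_gt |(z : ℝ)| A with h1 | h1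
  · have h2 : 1 ≤ ((B : ℝ) - |(z : ℝ)|) / (B - A) := by
      rw [le_div_iff₀ hd]
      linarith
    rw [min_eq_left h2, max_eq_right zero_le_one, max_eq_right, max_eq_right]
    · field_simp
      ring
    · rw [sub_nonneg, div_le_one hA']
      exact h1
    · rw [sub_nonneg, div_le_one hB']
      linarith
  · rcases le_or_gt |(z : ℝ)| B with h2 | h2
    · have h3 : ((B : ℝ) - |(z : ℝ)|) / (B - A) ≤ 1 := by
        rw [div_le_one hd]
        linarith
      have h4 : 0 ≤ ((B : ℝ) - |(z : ℝ)|) / (B - A) := div_nonneg (by linarith) hd.le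
      rw [min_eq_right h3, max_eq_right h4, max_eq_right, max_eq_left]
      · field_simp
        ring
      · rw [sub_nonpos, one_le_div hA']
        exact h1.le
      · rw [sub_nonneg, div_le_one hB']
        exact h2
    · have h4 : ((B : ℝ) - |(z : ℝ)|) / (B - A) ≤ 0 := div_nonpos_of_nonpos_of_nonneg (by linarith) hd.le
      rw [max_eq_left (le_trans (min_le_right _ _) h4), max_eq_left, max_eq_left]
      · ring
      · rw [sub_nonpos, one_le_div hA']
        exact h1.le
      · rw [sub_nonpos, one_le_div hB']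
        exact h2.le

/-- TRP -/
theorem trp (h_NNA : T_NNA) : T_TRP := by
  obtain ⟨hN0, hN16, -, -⟩ := h_NNA
  have key : ∀ r, ∃ K : L1, ‖K‖ ≤ 2 ∧ ∀ z, coeff K z = VV r z := by
    intro r
    set A : ℕ := 2 * NN r with hA
    set B : ℕ := NN (r + 1) with hB
    have hA0 : 0 < A := by have := hN0 r; omega
    have hAB : 8 * A ≤ B := by have := hN16 r; omega
    have hA' : (0 : ℝ) < A := by exact_mod_cast hA0
    have hAB' : 8 * (A : ℝ) ≤ B := by exact_mod_cast hAB
    have hd : (0 : ℝ) < B - A := by linarith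
    have hAc : (((A - 1 : ℕ) : ℝ)) + 1 = A := by
      rw [Nat.cast_sub hA0]; simp
    have hBc : (((B - 1 : ℕ) : ℝ)) + 1 = B := by
      rw [Nat.cast_sub (by omega : 1 ≤ B)]; simp
    refine ⟨((((B : ℝ) - A)⁻¹ : ℝ) : ℂ) • ((((B : ℝ)) : ℂ) • fejerK (B - 1) - (((A : ℝ)) : ℂ) • fejerK (A - 1)),
      ?_, fun z => ?_⟩
    · rw [norm_smul, Complex.norm_real, norm_inv, Real.norm_of_nonneg hd.le]
      have h1 := norm_sub_le ((((B : ℝ)) : ℂ) • fejerK (B - 1)) ((((A : ℝ)) : ℂ) • fejerK (A - 1))
      rw [norm_smul, norm_smul, norm_fejerK, norm_fejerK, Complex.norm_real, Complex.norm_real,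
        Real.norm_of_nonneg (by positivity), Real.norm_of_nonneg (by positivity), mul_one, mul_one] at h1
      rw [inv_mul_le_iff₀ hd]
      linarith
    · rw [coeff_smul, coeff_sub, coeff_smul, coeff_smul, coeff_fejerK, coeff_fejerK, hAc, hBc]
      have h3 := trap_eq A B hA0 (by omega) z
      have h4 : VV r z = trap A B z := rfl
      rw [h4]
      have h5 : (trap A B z : ℝ) = ((B : ℝ) - A)⁻¹ * ((B : ℝ) * max 0 (1 - |(z : ℝ)| / B) -
          A * max 0 (1 - |(z : ℝ)| / A)) := by
        rw [h3]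
        field_simp
      rw [h5]
      push_cast
      ring
  refine ⟨key, fun r => ?_⟩
  obtain ⟨K, hK, hz⟩ := key r
  exact mulB_of_kernel K _ 2 hK hz

end Pool.Agent.H65.SC
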