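import Mathlib
import Pool.Agent.H85.SC.Targets

/-!
# Complexity of synthesis, modules APM and VLM
-/

open Filter Topology MeasureTheory

namespace Pool.Agent.H65.SC

open Pool.Agent.H87.Synth Pool.Agent.H85.SC

/-- APM -/
theorem apm (h_EAP : T_EAP) (h_ECH : T_ECH) (h_EMB : T_EMB) (h_MUL : T_MUL) : T_APM := by
  obtain ⟨-, hle, hadd, hsub, hmul, hsm, hcst, -, -, -⟩ := h_MUL
  have h1 : ∀ (q : ℕ) (c : ℤ), 0 < q → MulB (ind fun z => (q : ℤ) ∣ z - c) 1 := by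
    intro q c hq
    have h2 := h_EMB q _ _ (h_EAP q c hq)
    have h3 : (q : ℝ) * (1 / q) = 1 := by
      have : (q : ℝ) ≠ 0 := by exact_mod_cast hq.ne'
      field_simp
    rwa [h3] at h2
  have h2 : ∀ n a, MulB (ind (inK n a)) 1 := by
    intro n a
    have h3 := h1 (4 ^ a) (cc n) (by positivity)
    have h4 : (fun z : ℤ => (((4 ^ a : ℕ) : ℤ)) ∣ z - cc n) = inK n a := by
      funext z
      simp [inK]
    rwa [h4] at h3
  have h3 : ∀ n, MulB (ind (inh n)) 1 := by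
    intro n
    have h3 := h1 (4 ^ (Nat.size n + 1)) (cc n + 4 ^ Nat.size n) (by positivity)
    have h4 : (fun z : ℤ => (((4 ^ (Nat.size n + 1) : ℕ) : ℤ)) ∣ z - (cc n + 4 ^ Nat.size n)) = inh n := by
      funext z
      unfold inh
      push_cast
      rw [sub_add_eq_sub_sub]
    rwa [h4] at h3
  have h3' : ∀ n, MulB (ind (ing n)) 1 := by
    intro n
    have h3 := h1 (4 ^ (Nat.size n + 1)) (cc n + 3 * 4 ^ Nat.size n) (by positivity)
    have h4 : (fun z : ℤ => (((4 ^ (Nat.size n + 1) : ℕ) : ℤ)) ∣ z - (cc n + 3 * 4 ^ Nat.size n)) = ing n := by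
      funext z
      unfold ing
      push_cast
      rw [sub_add_eq_sub_sub]
    rwa [h4] at h3
  have h4 : ∀ m j, MulB (fun z => (chi m j z : ℂ)) (Real.sqrt (pr m j)) := by
    intro m j
    have h5 := h_EMB _ _ _ (h_ECH m j)
    have h6 : (pr m j : ℝ) * (1 / Real.sqrt (pr m j)) = Real.sqrt (pr m j) := by
      have h7 : (0 : ℝ) < pr m j := by exact_mod_cast (pr_prime m j).pos
      have h8 : 0 < Real.sqrt (pr m j) := Real.sqrt_pos.2 h7
      rw [mul_one_div, div_eq_iff h8.ne', Real.mul_self_sqrt h7.le]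
    rwa [h6] at h5
  refine ⟨h1, h2, h3, h3', h4, fun n => ?_⟩
  set p0 := Real.sqrt (pr n 0)
  set p1 := Real.sqrt (pr n 1)
  set p2 := Real.sqrt (pr n 2)
  refine ⟨1 * (‖(1 / 4 : ℂ)‖ * ((‖(1 : ℂ)‖ + p0 * p1) * (‖(1 : ℂ)‖ + 1 * (p0 * p2)))), fun a => ?_⟩
  have h5 : MulB (fun z => (1 : ℂ) + (chi n 0 z : ℂ) * chi n 1 z) (‖(1 : ℂ)‖ + p0 * p1) :=
    hadd _ _ _ _ (hcst 1) (hmul _ _ _ _ (h4 n 0) (h4 n 1))
  have h6 : MulB (fun z => (-1 : ℂ) ^ a * ((chi n 0 z : ℂ) * chi n 2 z)) (1 * (p0 * p2)) := by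
    have h7 := hsm _ _ ((-1 : ℂ) ^ a) (hmul _ _ _ _ (h4 n 0) (h4 n 2))
    have h8 : ‖(-1 : ℂ) ^ a‖ = 1 := by simp
    rwa [h8] at h7
  have h7 : MulB (fun z => (1 : ℂ) - (-1 : ℂ) ^ a * ((chi n 0 z : ℂ) * chi n 2 z))
      (‖(1 : ℂ)‖ + 1 * (p0 * p2)) := hsub _ _ _ _ (hcst 1) h6
  have h8 := hmul _ _ _ _ (h3 n) (hsm _ _ (1 / 4 : ℂ) (hmul _ _ _ _ h5 h7))
  have h9 : (fun z => ind (inh n) z * ((1 / 4 : ℂ) * (((1 : ℂ) + (chi n 0 z : ℂ) * chi n 1 z) *
      ((1 : ℂ) - (-1 : ℂ) ^ a * ((chi n 0 z : ℂ) * chi n 2 z))))) = tr n a := by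
    funext z
    unfold tr
    ring
  rwa [h9] at h8

/-- VLM -/
theorem vlm (h_NNA : T_NNA) (h_TRP : T_TRP) (h_MUL : T_MUL) (h_VVS : T_VVS) : T_VLM := by
  obtain ⟨-, -, -, hNr⟩ := h_NNA
  obtain ⟨-, hT⟩ := h_TRP
  obtain ⟨-, -, -, -, -, -, -, -, -, huniq⟩ := h_MUL
  obtain ⟨hV1, -, -, -⟩ := h_VVS
  have hspan : ∀ p ∈ Submodule.span ℂ (Set.range ex), ∃ R : ℕ, ∀ r, R ≤ r → ∀ z,
      (VV r z : ℂ) * coeff p z = coeff p z := by
    intro p hp
    induction hp using Submodule.span_induction with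
    | mem x hx =>
      obtain ⟨n, rfl⟩ := hx
      refine ⟨n.natAbs, fun r hr z => ?_⟩
      rw [coeff_ex]
      by_cases hnz : n = z
      · subst hnz
        rw [hV1 r n ?_]
        · simp
        · have h1 := hNr r
          have h2 : |n| = (n.natAbs : ℤ) := Int.abs_eq_natAbs n
          rw [h2]
          have : (n.natAbs : ℤ) ≤ r := by exact_mod_cast hr
          have h3 : ((r : ℤ) + 2) ≤ NN r := by exact_mod_cast h1
          linarith
      · simp [hnz]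
    | zero => exact ⟨0, fun r _ z => by simp [coeff_zero]⟩
    | add x y _ _ hx hy =>
      obtain ⟨R, hR⟩ := hx
      obtain ⟨R', hR'⟩ := hy
      refine ⟨max R R', fun r hr z => ?_⟩
      rw [coeff_add, mul_add, hR r (le_trans (le_max_left _ _) hr), hR' r (le_trans (le_max_right _ _) hr)]
    | smul a x _ hx =>
      obtain ⟨R, hR⟩ := hx
      refine ⟨R, fun r hr z => ?_⟩
      rw [coeff_smul, mul_left_comm, hR r hr]
  intro f ε hε
  obtain ⟨p, hp, hfp⟩ := dense_span_ex f (ε / 4) (by positivity)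
  obtain ⟨R, hR⟩ := hspan p hp
  refine ⟨R, fun r hr g hg => ?_⟩
  obtain ⟨T, hTc, hTb⟩ := hT r
  have h1 : T f = g := huniq _ f _ _ (fun z => hTc f z) hg
  have h2 : T p = p := huniq _ p _ _ (fun z => hTc p z) (fun z => (hR r hr z).symm)
  have h3 : g - f = T (f - p) - (f - p) := by
    rw [map_sub, h1, h2]
    abel
  rw [h3]
  have h4 := norm_sub_le (T (f - p)) (f - p)
  have h5 := hTb (f - p)
  linarith

end Pool.Agent.H65.SC
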