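import Mathlib
import Pool.Agent.H85.SC.Targets

/-!
# Complexity of synthesis, module EMB: expansions are multipliers
-/

open Filter Topology MeasureTheory AddCircle

namespace Pool.Agent.H65.SC

open Pool.Agent.H87.Synth Pool.Agent.H85.SC

/-- translation -/
noncomputable def trans (t : Circ) : L1 →ₗᵢ[ℂ] L1 :=
  Lp.compMeasurePreservingₗᵢ ℂ (fun x : Circ => x + t) (measurePreserving_add_right haarAddCircle t)

theorem coeFn_trans (t : Circ) (f : L1) : (trans t f : Circ → ℂ) =ᵐ[haarAddCircle]
    fun x => (f : Circ → ℂ) (x + t) :=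
  Lp.coeFn_compMeasurePreserving f (measurePreserving_add_right haarAddCircle t)

theorem coeff_trans (t : Circ) (f : L1) (z : ℤ) : coeff (trans t f) z = fourier z t * coeff f z := by
  rw [coeff_def, coeff_def]
  have h1 : ∫ x, (fourier (-z) x : ℂ) * (trans t f : Circ → ℂ) x ∂haarAddCircle =
      ∫ x, (fourier z t : ℂ) * ((fourier (-z) (x + t) : ℂ) * (f : Circ → ℂ) (x + t)) ∂haarAddCircle := by
    refine integral_congr_ae ?_
    filter_upwards [coeFn_trans t f] with x hx
    rw [hx, fourier_neg_add]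
    have h2 : (fourier z t : ℂ) * fourier (-z) t = 1 := by
      rw [← fourier_add]
      simp
    linear_combination (-((fourier (-z) x : ℂ) * (f : Circ → ℂ) (x + t))) * h2
  rw [h1, integral_const_mul]
  congr 1
  exact integral_add_right_eq_self (fun x => (fourier (-z) x : ℂ) * (f : Circ → ℂ) x) t

/-- EMB -/
theorem emb : T_EMB := by
  intro D κ h ⟨a, ha, hz⟩
  rcases Nat.eq_zero_or_pos D with rfl | hD
  · refine ⟨0, fun f z => ?_, fun f => ?_⟩
    · rw [hz z]
      simp [coeff_zero]
    · simp
  have hD' : (D : ℂ) ≠ 0 := by exact_mod_cast hD.ne'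
  let t : ℕ → Circ := fun k => ((2 * Real.pi * k / D : ℝ) : Circ)
  have ht : ∀ (k : ℕ) (z : ℤ), (fourier z (t k) : ℂ) = ze D ^ ((k : ℤ) * z) := by
    intro k z
    rw [fourier_coe_apply]
    unfold ze
    rw [← Complex.exp_int_mul]
    congr 1
    have hpi : (Real.pi : ℂ) ≠ 0 := by exact_mod_cast Real.pi_ne_zero
    push_cast
    field_simp
  let T : L1 →L[ℂ] L1 := ∑ k ∈ Finset.range D, a k • (trans (t k)).toContinuousLinearMap
  have hT : ∀ f, T f = ∑ k ∈ Finset.range D, a k • trans (t k) f := by
    intro f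
    simp [T]
  refine ⟨T, fun f z => ?_, fun f => ?_⟩
  · rw [hT, coeff_sum, hz z, Finset.sum_mul]
    refine Finset.sum_congr rfl fun k _ => ?_
    rw [coeff_smul, coeff_trans, ht]
    ring
  · rw [hT]
    refine le_trans (norm_sum_le _ _) ?_
    calc ∑ k ∈ Finset.range D, ‖a k • trans (t k) f‖ ≤ ∑ _k ∈ Finset.range D, κ * ‖f‖ := by
          refine Finset.sum_le_sum fun k _ => ?_
          rw [norm_smul, LinearIsometry.norm_map]
          exact mul_le_mul_of_nonneg_right (ha k) (norm_nonneg _)
      _ = D * κ * ‖f‖ := by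
          rw [Finset.sum_const, Finset.card_range, nsmul_eq_mul]
          ring

end Pool.Agent.H65.SC
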